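import Mathlib
import Pool.Agent.P.MP_fec245_lc.Main

/-!
A countable structure, homogeneous in a finite relational language, none of whose
omega-categorical expansions is Ramsey.
-/

namespace Pool.Agent.Results.MP_fec245_lc.NoRamseyExpansion

open FirstOrder CategoryTheory

universe u v

/-- `M` is omega-categorical, in the form: the automorphism group of `M` has finitely many orbits
on `n`-tuples, for every `n`. -/
def Oligomorphic (L : FirstOrder.Language.{u, v}) (M : Type) [L.Structure M] : Prop :=
  ∀ n : ℕ, ∃ S : Set (Fin n → M), S.Finite ∧ ∀ x : Fin n → M, ∃ g : M ≃[L] M, g ∘ x ∈ S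

/-- The Ramsey property of a class `K` of `L`-structures, for colourings of embeddings. -/
def RamseyProperty (L : FirstOrder.Language.{u, v}) (K : Set (Bundled.{0} L.Structure)) : Prop :=
  ∀ A ∈ K, ∀ B ∈ K, ∀ k : ℕ, 1 ≤ k → ∃ C ∈ K, ∀ χ : (A ↪[L] C) → Fin k,
    ∃ f : B ↪[L] C, ∀ e e' : A ↪[L] B, χ (f.comp e) = χ (f.comp e')

/-- The relational language with one `n`-ary symbol for each `L`-formula in `n` free variables. -/
def defLang (L : FirstOrder.Language.{u, v}) : FirstOrder.Language.{0, max u v} where
  Functions _ := Empty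
  Relations n := L.Formula (Fin n)

/-- `M` with all its first-order definable relations. -/
@[reducible] def defStructure (L : FirstOrder.Language.{u, v}) (M : Type) [L.Structure M] :
    (defLang L).Structure M where
  funMap f := Empty.elim f
  RelMap φ x := FirstOrder.Language.Formula.Realize (L := L) φ x

/-- `M` is Ramsey: the age of `M` with all its definable relations has the Ramsey property. -/
def IsRamsey (L : FirstOrder.Language.{u, v}) (M : Type) [L.Structure M] : Prop :=
  RamseyProperty (defLang L) (@FirstOrder.Language.age (defLang L) M (defStructure L M))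

theorem result :
    ∃ (L : FirstOrder.Language.{0, 0}) (Γ : Type) (_ : L.Structure Γ),
      L.IsRelational ∧ Finite L.Symbols ∧ Countable Γ ∧ L.IsUltrahomogeneous Γ ∧
      ∀ (L' : FirstOrder.Language.{u, v}) (_ : L'.Structure Γ) (ι : L →ᴸ L'),
        ι.IsExpansionOn Γ → Oligomorphic L' Γ → ¬ IsRamsey L' Γ := by
  refine ⟨P.MP_fec245_lc.lang, P.MP_fec245_lc.G, P.MP_fec245_lc.str, P.MP_fec245_lc.lang_rel,
    P.MP_fec245_lc.lang_finite, inferInstance, P.MP_fec245_lc.homogeneous,
    fun L' inst ι hι hol hR => ?_⟩
  let := P.MP_fec245_lc.str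
  let := defStructure L' P.MP_fec245_lc.G
  have : (defLang L').IsRelational := fun _ => inferInstanceAs (IsEmpty Empty)
  refine P.MP_fec245_lc.no_ramsey (defLang L') (fun n r => ?_) ?_ hR
  · refine ⟨(ι.onRelation r).formula FirstOrder.Language.Term.var, fun x => ?_⟩
    exact FirstOrder.Language.Formula.realize_rel.trans
      (Iff.of_eq (hι.map_onRelation (n := n) r x))
  · obtain ⟨S, hS, h⟩ := hol 2
    refine ⟨S, hS, fun x => ?_⟩
    obtain ⟨g, hg⟩ := h x
    exact ⟨⟨g.toEquiv, fun {_} F => Empty.elim F, fun {_} φ y =>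
      FirstOrder.Language.StrongHomClass.realize_formula g φ⟩, hg⟩

end Pool.Agent.Results.MP_fec245_lc.NoRamseyExpansion
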